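import Mathlib

set_option autoImplicit false

namespace Pool.Agent.helper29.Conical

open Set

/-- The `k`-th sawtooth term. -/
noncomputable def saw (N : ℕ) (k : ℕ) (t : ℝ) : ℝ := Int.fract ((N : ℝ) ^ k * t) / (N : ℝ) ^ k

/-- The function whose graph is the counterexample. -/
noncomputable def gfun (κ : ℝ) (N : ℕ) (t : ℝ) : ℝ := κ * ∑' k : ℕ, (-1 : ℝ) ^ k * saw N k t

variable {N : ℕ}

theorem saw_nonneg (N k : ℕ) (t : ℝ) : 0 ≤ saw N k t := by
  unfold saw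
  exact div_nonneg (Int.fract_nonneg _) (by positivity)

theorem saw_le (N k : ℕ) (t : ℝ) : saw N k t ≤ (1 / (N : ℝ)) ^ k := by
  unfold saw
  rw [one_div, inv_pow, ← one_div]
  exact div_le_div_of_nonneg_right (Int.fract_lt_one _).le (by positivity)

theorem norm_term_le (N k : ℕ) (t : ℝ) : ‖(-1 : ℝ) ^ k * saw N k t‖ ≤ (1 / (N : ℝ)) ^ k := by
  rw [norm_mul, norm_pow, norm_neg, norm_one, one_pow, one_mul, Real.norm_eq_abs,
    abs_of_nonneg (saw_nonneg N k t)]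
  exact saw_le N k t

theorem one_div_lt_one (hN : 3 ≤ N) : 1 / (N : ℝ) < 1 := by
  have : (3 : ℝ) ≤ N := by exact_mod_cast hN
  rw [div_lt_one (by linarith)]
  linarith

theorem summable_term (hN : 3 ≤ N) (t : ℝ) : Summable fun k : ℕ => (-1 : ℝ) ^ k * saw N k t :=
  Summable.of_norm_bounded (summable_geometric_of_lt_one (by positivity) (one_div_lt_one hN))
    (fun k => norm_term_le N k t)

theorem saw_sub (hN : 3 ≤ N) (k : ℕ) (t t' : ℝ) :
    saw N k t' - saw N k t =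
      (t' - t) - ((⌊(N : ℝ) ^ k * t'⌋ - ⌊(N : ℝ) ^ k * t⌋ : ℤ) : ℝ) / (N : ℝ) ^ k := by
  have hN0 : (N : ℝ) ^ k ≠ 0 := by
    have : (N : ℝ) ≠ 0 := by
      have : 0 < N := by omega
      positivity
    positivity
  unfold saw Int.fract
  push_cast
  field_simp
  ring

theorem abs_saw_sub_le (k : ℕ) (t t' : ℝ) :
    |saw N k t' - saw N k t| ≤ (1 / (N : ℝ)) ^ k := by
  have h1 := saw_nonneg N k t
  have h2 := saw_nonneg N k t'
  have h3 := saw_le N k t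
  have h4 := saw_le N k t'
  rw [abs_le]
  constructor <;> linarith

theorem sum_alt (L : ℕ) : ∑ j ∈ Finset.range (L + 1), (-1 : ℝ) ^ j = (1 + (-1) ^ L) / 2 := by
  induction L with
  | zero => norm_num
  | succ L ih => rw [Finset.sum_range_succ, ih, pow_succ]; ring

/-- Difference of two values of the sawtooth sum, up to level `L`. -/
theorem gfun_sub (κ : ℝ) (hN : 3 ≤ N) (t t' : ℝ) (L : ℕ)
    (hL : ∀ j < L, ⌊(N : ℝ) ^ j * t'⌋ = ⌊(N : ℝ) ^ j * t⌋) (hκ : 0 ≤ κ) :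
    |gfun κ N t' - gfun κ N t - κ * ((1 + (-1) ^ L) / 2) * (t' - t)
      + (-1) ^ L * κ * ((⌊(N : ℝ) ^ L * t'⌋ - ⌊(N : ℝ) ^ L * t⌋ : ℤ) : ℝ) / (N : ℝ) ^ L|
      ≤ κ * (1 / 2) / (N : ℝ) ^ L := by
  have hN3 : (3 : ℝ) ≤ N := by exact_mod_cast hN
  have hN0 : (0 : ℝ) < N := by linarith
  have hsub : gfun κ N t' - gfun κ N t =
      κ * ∑' k : ℕ, (-1 : ℝ) ^ k * (saw N k t' - saw N k t) := by
    unfold gfun
    rw [← mul_sub, ← (summable_term hN t').tsum_sub (summable_term hN t)]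
    congr 1
    apply tsum_congr
    intro k
    ring
  have hsumm : Summable fun k : ℕ => (-1 : ℝ) ^ k * (saw N k t' - saw N k t) := by
    have := (summable_term hN t').sub (summable_term hN t)
    refine this.congr ?_
    intro k
    ring
  have hsplit := (hsumm.sum_add_tsum_nat_add (L + 1)).symm
  have hfin : ∑ j ∈ Finset.range (L + 1), (-1 : ℝ) ^ j * (saw N j t' - saw N j t) =
      ((1 + (-1) ^ L) / 2) * (t' - t) -
        (-1) ^ L * ((⌊(N : ℝ) ^ L * t'⌋ - ⌊(N : ℝ) ^ L * t⌋ : ℤ) : ℝ) / (N : ℝ) ^ L := by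
    rw [Finset.sum_range_succ]
    have h1 : ∑ j ∈ Finset.range L, (-1 : ℝ) ^ j * (saw N j t' - saw N j t) =
        (∑ j ∈ Finset.range L, (-1 : ℝ) ^ j) * (t' - t) := by
      rw [Finset.sum_mul]
      apply Finset.sum_congr rfl
      intro j hj
      rw [saw_sub hN, hL j (Finset.mem_range.mp hj)]
      simp
    rw [h1, saw_sub hN, ← sum_alt, Finset.sum_range_succ]
    ring
  have htail : |∑' j : ℕ, (-1 : ℝ) ^ (j + (L + 1)) * (saw N (j + (L + 1)) t' -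
      saw N (j + (L + 1)) t)| ≤ (1 / 2) / (N : ℝ) ^ L := by
    have hgeo : HasSum (fun j : ℕ => (1 / (N : ℝ)) ^ (j + (L + 1)))
        ((1 - 1 / (N : ℝ))⁻¹ * (1 / (N : ℝ)) ^ (L + 1)) := by
      have := (hasSum_geometric_of_lt_one (r := 1 / (N : ℝ)) (by positivity)
        (one_div_lt_one hN)).mul_right ((1 / (N : ℝ)) ^ (L + 1))
      simpa only [pow_add] using this
    have hb : ‖∑' j : ℕ, (-1 : ℝ) ^ (j + (L + 1)) * (saw N (j + (L + 1)) t' -
      saw N (j + (L + 1)) t)‖ ≤ (1 - 1 / (N : ℝ))⁻¹ * (1 / (N : ℝ)) ^ (L + 1) := by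
      refine tsum_of_norm_bounded hgeo ?_
      intro j
      rw [norm_mul, norm_pow, norm_neg, norm_one, one_pow, one_mul, Real.norm_eq_abs]
      exact abs_saw_sub_le _ _ _
    rw [Real.norm_eq_abs] at hb
    refine le_trans hb ?_
    have h2 : (1 - 1 / (N : ℝ))⁻¹ * (1 / (N : ℝ)) ^ (L + 1) = (1 / ((N : ℝ) - 1)) / (N : ℝ) ^ L := by
      have : (N : ℝ) - 1 ≠ 0 := by linarith
      rw [pow_succ, one_div (N : ℝ), inv_pow]
      field_simp
    rw [h2]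
    apply div_le_div_of_nonneg_right _ (by positivity)
    apply one_div_le_one_div_of_le (by norm_num)
    linarith
  rw [hsub, hsplit, hfin]
  obtain ⟨R, hR⟩ : ∃ R, R = ∑' j : ℕ, (-1 : ℝ) ^ (j + (L + 1)) * (saw N (j + (L + 1)) t' -
      saw N (j + (L + 1)) t) := ⟨_, rfl⟩
  rw [← hR] at htail ⊢
  have h3 : κ * ((1 + (-1) ^ L) / 2 * (t' - t) -
      (-1) ^ L * ((⌊(N : ℝ) ^ L * t'⌋ - ⌊(N : ℝ) ^ L * t⌋ : ℤ) : ℝ) / (N : ℝ) ^ L + R) -
      κ * ((1 + (-1) ^ L) / 2) * (t' - t)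
      + (-1) ^ L * κ * ((⌊(N : ℝ) ^ L * t'⌋ - ⌊(N : ℝ) ^ L * t⌋ : ℤ) : ℝ) / (N : ℝ) ^ L = κ * R := by
    ring
  rw [h3, abs_mul, abs_of_nonneg hκ]
  calc κ * |R| ≤ κ * ((1 / 2) / (N : ℝ) ^ L) := mul_le_mul_of_nonneg_left htail hκ
    _ = κ * (1 / 2) / (N : ℝ) ^ L := by ring

end Pool.Agent.helper29.Conical
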