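import Mathlib
import Pool.Agent.helper29.Conical.Saw

set_option autoImplicit false

namespace Pool.Agent.helper29.Conical

open Set MeasureTheory Measure Filter Topology
open scoped ENNReal NNReal

variable {N : ℕ}

/-- The parametrisation of the graph. -/
noncomputable def fmap (κ : ℝ) (N : ℕ) (t : ℝ) : EuclideanSpace ℝ (Fin 2) := !₂[t, gfun κ N t]

theorem dist_fmap_le (κ : ℝ) (t t' : ℝ) :
    dist (fmap κ N t) (fmap κ N t') ≤ |t - t'| + |gfun κ N t - gfun κ N t'| := by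
  rw [EuclideanSpace.dist_eq]
  have h : ∑ i, dist ((fmap κ N t).ofLp i) ((fmap κ N t').ofLp i) ^ 2 =
      |t - t'| ^ 2 + |gfun κ N t - gfun κ N t'| ^ 2 := by
    simp [fmap, Fin.sum_univ_two, Real.dist_eq]
  rw [h]
  apply Real.sqrt_le_iff.mpr
  have h1 := abs_nonneg (t - t')
  have h2 := abs_nonneg (gfun κ N t - gfun κ N t')
  constructor
  · positivity
  · nlinarith [mul_nonneg h1 h2]

theorem abs_sub_le_dist_fmap (κ : ℝ) (t t' : ℝ) : |t - t'| ≤ dist (fmap κ N t) (fmap κ N t') := by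
  have h := PiLp.dist_apply_le (p := 2) (fmap κ N t) (fmap κ N t') 0
  simpa [fmap, Real.dist_eq] using h

theorem abs_gfun_sub_le_dist_fmap (κ : ℝ) (t t' : ℝ) :
    |gfun κ N t - gfun κ N t'| ≤ dist (fmap κ N t) (fmap κ N t') := by
  have h := PiLp.dist_apply_le (p := 2) (fmap κ N t) (fmap κ N t') 1
  simpa [fmap, Real.dist_eq] using h

theorem same_cell_dist (hN : 3 ≤ N) {κ : ℝ} (hκ : 0 ≤ κ) (hκ1 : κ ≤ 1 / 2) {t t' : ℝ} (l : ℕ)
    (h : ⌊(N : ℝ) ^ l * t'⌋ = ⌊(N : ℝ) ^ l * t⌋) :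
    dist (fmap κ N t') (fmap κ N t) ≤ 2 / (N : ℝ) ^ l := by
  have hN3 : (3 : ℝ) ≤ N := by exact_mod_cast hN
  have hN0 : (0 : ℝ) < N := by linarith
  have hp : (0 : ℝ) < (N : ℝ) ^ l := by positivity
  -- coarser floors also agree
  have hco : ∀ j < l, ⌊(N : ℝ) ^ j * t'⌋ = ⌊(N : ℝ) ^ j * t⌋ := by
    intro j hj
    have hfl : ∀ s : ℝ, ⌊(N : ℝ) ^ j * s⌋ = ⌊(N : ℝ) ^ l * s⌋ / ((N ^ (l - j) : ℕ) : ℤ) := by
      intro s
      have h1 : (N : ℝ) ^ j * s = ((N : ℝ) ^ l * s) / ((N ^ (l - j) : ℕ) : ℝ) := by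
        have h2 : (N : ℝ) ^ l = (N : ℝ) ^ j * (N : ℝ) ^ (l - j) := by
          rw [← pow_add, Nat.add_sub_cancel' hj.le]
        rw [h2]
        push_cast
        have : (N : ℝ) ^ (l - j) ≠ 0 := by positivity
        field_simp
      rw [h1, Int.floor_div_natCast]
    rw [hfl, hfl, h]
  have hmain := gfun_sub κ hN t t' l hco hκ
  rw [h, sub_self] at hmain
  simp only [Int.cast_zero, mul_zero, zero_div, add_zero] at hmain
  have hδ : |t' - t| ≤ 1 / (N : ℝ) ^ l := by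
    have hf1 := Int.floor_le ((N : ℝ) ^ l * t)
    have hf2 := Int.lt_floor_add_one ((N : ℝ) ^ l * t)
    have hf3 := Int.floor_le ((N : ℝ) ^ l * t')
    have hf4 := Int.lt_floor_add_one ((N : ℝ) ^ l * t')
    rw [h] at hf3 hf4
    have h1 : |t' - t| * (N : ℝ) ^ l = |(t' - t) * (N : ℝ) ^ l| := by
      rw [abs_mul, abs_of_pos hp]
    rw [le_div_iff₀ hp, h1, abs_le]
    constructor <;> nlinarith
  have hs : |(1 + (-1 : ℝ) ^ l) / 2| ≤ 1 := by
    rcases neg_one_pow_eq_or ℝ l with h1 | h1 <;> rw [h1] <;> norm_num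
  have hD : |gfun κ N t' - gfun κ N t| ≤ 1 / (N : ℝ) ^ l := by
    have h1 : |gfun κ N t' - gfun κ N t| ≤ |gfun κ N t' - gfun κ N t -
        κ * ((1 + (-1) ^ l) / 2) * (t' - t)| + |κ * ((1 + (-1) ^ l) / 2) * (t' - t)| := by
      have := abs_add_le (gfun κ N t' - gfun κ N t - κ * ((1 + (-1) ^ l) / 2) * (t' - t))
        (κ * ((1 + (-1) ^ l) / 2) * (t' - t))
      simpa using this
    have h2 : |κ * ((1 + (-1) ^ l) / 2) * (t' - t)| ≤ κ * (1 / (N : ℝ) ^ l) := by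
      rw [abs_mul, abs_mul, abs_of_nonneg hκ]
      have h3 : κ * |(1 + (-1 : ℝ) ^ l) / 2| ≤ κ := by nlinarith
      exact mul_le_mul h3 hδ (abs_nonneg _) hκ
    have h4 : κ * (1 / 2) / (N : ℝ) ^ l = κ * (1 / 2) * (1 / (N : ℝ) ^ l) := by ring
    have h5 : 0 < 1 / (N : ℝ) ^ l := by positivity
    nlinarith
  calc dist (fmap κ N t') (fmap κ N t) ≤ |t' - t| + |gfun κ N t' - gfun κ N t| :=
        dist_fmap_le κ t' t
    _ ≤ 1 / (N : ℝ) ^ l + 1 / (N : ℝ) ^ l := add_le_add hδ hD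
    _ = 2 / (N : ℝ) ^ l := by ring

/-- The graph over an interval has `H¹` measure at most twice the length. -/
theorem hausdorff_image_le (hN : 3 ≤ N) {κ : ℝ} (hκ : 0 ≤ κ) (hκ1 : κ ≤ 1 / 2) (a b : ℝ)
    (hab : a ≤ b) :
    μH[1] (fmap κ N '' (Icc a b ∩ Ico 0 1)) ≤ ENNReal.ofReal (2 * (b - a)) := by
  have hN3 : (3 : ℝ) ≤ N := by exact_mod_cast hN
  have hN0 : (0 : ℝ) < N := by linarith
  let I : ℕ → Finset ℤ := fun l => Finset.Icc ⌊(N : ℝ) ^ l * a⌋ ⌊(N : ℝ) ^ l * b⌋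
  let T : ∀ l : ℕ, I l → Set (EuclideanSpace ℝ (Fin 2)) := fun l i =>
    fmap κ N '' {t | t ∈ Ico (0 : ℝ) 1 ∧ ⌊(N : ℝ) ^ l * t⌋ = i}
  have hdiam : ∀ l (i : I l), Metric.ediam (T l i) ≤ ENNReal.ofReal (2 / (N : ℝ) ^ l) := by
    intro l i
    apply Metric.ediam_le
    rintro _ ⟨t, ⟨ht, hti⟩, rfl⟩ _ ⟨t', ⟨ht', hti'⟩, rfl⟩
    rw [edist_dist]
    apply ENNReal.ofReal_le_ofReal
    exact same_cell_dist hN hκ hκ1 l (by rw [hti, hti'])
  have hcov : ∀ l, fmap κ N '' (Icc a b ∩ Ico 0 1) ⊆ ⋃ i, T l i := by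
    intro l
    rintro _ ⟨t, ⟨htab, ht⟩, rfl⟩
    rw [mem_iUnion]
    have hmem : ⌊(N : ℝ) ^ l * t⌋ ∈ I l := by
      rw [Finset.mem_Icc]
      exact ⟨Int.floor_le_floor (mul_le_mul_of_nonneg_left htab.1 (by positivity)),
        Int.floor_le_floor (mul_le_mul_of_nonneg_left htab.2 (by positivity))⟩
    exact ⟨⟨_, hmem⟩, ⟨t, ⟨ht, rfl⟩, rfl⟩⟩
  have hlim0 : Tendsto (fun l : ℕ => 2 / (N : ℝ) ^ l) atTop (𝓝 0) := by
    have h1 : Tendsto (fun l : ℕ => ((N : ℝ) ^ l)⁻¹) atTop (𝓝 0) :=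
      tendsto_inv_atTop_zero.comp (tendsto_pow_atTop_atTop_of_one_lt (by linarith))
    have h2 := h1.const_mul 2
    rw [mul_zero] at h2
    refine h2.congr ?_
    intro l
    rw [div_eq_mul_inv]
  have hle := hausdorffMeasure_le_liminf_sum (X := EuclideanSpace ℝ (Fin 2)) (β := ℕ)
    (ι := fun l => I l) 1 (fmap κ N '' (Icc a b ∩ Ico 0 1)) (l := atTop)
    (fun l => ENNReal.ofReal (2 / (N : ℝ) ^ l))
    (by
      have := (ENNReal.continuous_ofReal.tendsto 0).comp hlim0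
      rw [ENNReal.ofReal_zero] at this
      exact this)
    T (Eventually.of_forall fun l i => hdiam l i) (Eventually.of_forall hcov)
  refine le_trans hle ?_
  have hsum : ∀ l, ∑ i, Metric.ediam (T l i) ^ (1 : ℝ) ≤
      ENNReal.ofReal (2 * (b - a) + 4 / (N : ℝ) ^ l) := by
    intro l
    have hp : (0 : ℝ) < (N : ℝ) ^ l := by positivity
    calc ∑ i, Metric.ediam (T l i) ^ (1 : ℝ) ≤ ∑ _i : I l, ENNReal.ofReal (2 / (N : ℝ) ^ l) := by
          apply Finset.sum_le_sum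
          intro i _
          rw [ENNReal.rpow_one]
          exact hdiam l i
      _ = ENNReal.ofReal ((Fintype.card (I l) : ℝ) * (2 / (N : ℝ) ^ l)) := by
          rw [Finset.sum_const, Finset.card_univ, nsmul_eq_mul,
            ENNReal.ofReal_mul (by positivity), ENNReal.ofReal_natCast]
      _ ≤ ENNReal.ofReal (2 * (b - a) + 4 / (N : ℝ) ^ l) := by
          apply ENNReal.ofReal_le_ofReal
          have hcard : (Fintype.card (I l) : ℝ) ≤ (N : ℝ) ^ l * (b - a) + 2 := by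
            rw [Fintype.card_coe, Int.card_Icc]
            have h1 := Int.floor_le ((N : ℝ) ^ l * b)
            have h2 := Int.lt_floor_add_one ((N : ℝ) ^ l * a)
            have h3 : ⌊(N : ℝ) ^ l * a⌋ ≤ ⌊(N : ℝ) ^ l * b⌋ :=
              Int.floor_le_floor (mul_le_mul_of_nonneg_left hab (by positivity))
            have h4 : (((⌊(N : ℝ) ^ l * b⌋ + 1 - ⌊(N : ℝ) ^ l * a⌋).toNat : ℤ) : ℝ) =
                ((⌊(N : ℝ) ^ l * b⌋ + 1 - ⌊(N : ℝ) ^ l * a⌋ : ℤ) : ℝ) := by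
              rw [Int.toNat_of_nonneg (by omega)]
            have h5 : (((⌊(N : ℝ) ^ l * b⌋ + 1 - ⌊(N : ℝ) ^ l * a⌋).toNat : ℕ) : ℝ) =
                (⌊(N : ℝ) ^ l * b⌋ : ℝ) + 1 - (⌊(N : ℝ) ^ l * a⌋ : ℝ) := by
              have := h4
              push_cast at this ⊢
              exact this
            rw [h5]
            linarith
          calc (Fintype.card (I l) : ℝ) * (2 / (N : ℝ) ^ l)
              ≤ ((N : ℝ) ^ l * (b - a) + 2) * (2 / (N : ℝ) ^ l) :=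
                mul_le_mul_of_nonneg_right hcard (by positivity)
            _ = 2 * (b - a) + 4 / (N : ℝ) ^ l := by
                field_simp; ring
  have hlim : Tendsto (fun l : ℕ => ENNReal.ofReal (2 * (b - a) + 4 / (N : ℝ) ^ l)) atTop
      (𝓝 (ENNReal.ofReal (2 * (b - a)))) := by
    have h1 := (hlim0.const_mul 2).const_add (2 * (b - a))
    rw [mul_zero, add_zero] at h1
    have h2 := (ENNReal.continuous_ofReal.tendsto _).comp h1
    refine h2.congr ?_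
    intro l
    simp only [Function.comp_apply]
    congr 1
    ring
  rw [← hlim.liminf_eq]
  exact liminf_le_liminf (Eventually.of_forall hsum)

/-- The whole graph has `H¹` measure at least `1`. -/
theorem one_le_hausdorff (κ : ℝ) : 1 ≤ μH[1] (fmap κ N '' Ico 0 1) := by
  have hL : LipschitzWith 1 (fun x : EuclideanSpace ℝ (Fin 2) => x.ofLp 0) := by
    apply LipschitzWith.of_dist_le_mul
    intro x y
    rw [NNReal.coe_one, one_mul]
    exact PiLp.dist_apply_le (p := 2) x y 0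
  have h1 := hL.hausdorffMeasure_image_le (d := 1) (by norm_num) (fmap κ N '' Ico 0 1)
  have h2 : (fun x : EuclideanSpace ℝ (Fin 2) => x.ofLp 0) '' (fmap κ N '' Ico 0 1) = Ico 0 1 := by
    rw [image_image]
    simp [fmap]
  rw [h2, hausdorffMeasure_real] at h1
  simpa using h1

end Pool.Agent.helper29.Conical
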