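import Mathlib
import Pool.Agent.helper29.Conical.Saw

set_option autoImplicit false

namespace Pool.Agent.helper29.Conical

open Set MeasureTheory Measure Filter Topology
open scoped ENNReal NNReal

variable {N : ℕ}

theorem saw_fract (N k : ℕ) (t : ℝ) : saw N k (Int.fract t) = saw N k t := by
  unfold saw
  congr 1
  rw [Int.fract_eq_fract]
  refine ⟨-((N : ℤ) ^ k * ⌊t⌋), ?_⟩
  unfold Int.fract
  push_cast
  ring

theorem gfun_fract (κ : ℝ) (N : ℕ) (t : ℝ) : gfun κ N (Int.fract t) = gfun κ N t := by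
  unfold gfun
  simp only [saw_fract]

/-- Self-similarity with ratio `N⁻²`. -/
theorem gfun_selfsim (κ : ℝ) (hN : 3 ≤ N) (t : ℝ) :
    gfun κ N t = κ * ((⌊(N : ℝ) * t⌋ : ℝ) / N - (⌊t⌋ : ℝ)) + gfun κ N ((N : ℝ) ^ 2 * t) / (N : ℝ) ^ 2 := by
  have hN3 : (3 : ℝ) ≤ N := by exact_mod_cast hN
  have hN0 : (N : ℝ) ≠ 0 := by linarith
  unfold gfun
  rw [← (summable_term hN t).sum_add_tsum_nat_add 2, Finset.sum_range_succ, Finset.sum_range_one]
  have h1 : ∑' k : ℕ, (-1 : ℝ) ^ (k + 2) * saw N (k + 2) t =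
      (∑' k : ℕ, (-1 : ℝ) ^ k * saw N k ((N : ℝ) ^ 2 * t)) / (N : ℝ) ^ 2 := by
    rw [← tsum_div_const]
    apply tsum_congr
    intro k
    unfold saw
    have h2 : (N : ℝ) ^ (k + 2) * t = (N : ℝ) ^ k * ((N : ℝ) ^ 2 * t) := by ring
    rw [h2, pow_add (-1 : ℝ) k 2, pow_add (N : ℝ) k 2]
    have : ((-1 : ℝ)) ^ 2 = 1 := by norm_num
    rw [this]
    field_simp
  rw [h1]
  unfold saw
  simp only [pow_zero, one_mul, pow_one, div_one]
  unfold Int.fract
  field_simp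
  ring

theorem measure_affine_le (G : Set ℝ) (c : ℝ) (hN : 3 ≤ N) :
    (volume : Measure ℝ) ((fun y => c + y / (N : ℝ) ^ 2) '' G) ≤
      ENNReal.ofReal (1 / (N : ℝ) ^ 2) * volume G := by
  have hN3 : (3 : ℝ) ≤ N := by exact_mod_cast hN
  have hL : LipschitzWith (Real.toNNReal (1 / (N : ℝ) ^ 2)) (fun y : ℝ => c + y / (N : ℝ) ^ 2) := by
    apply LipschitzWith.of_dist_le_mul
    intro x y
    rw [Real.coe_toNNReal _ (by positivity), Real.dist_eq, Real.dist_eq]
    have : c + x / (N : ℝ) ^ 2 - (c + y / (N : ℝ) ^ 2) = 1 / (N : ℝ) ^ 2 * (x - y) := by ring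
    rw [this, abs_mul, abs_of_nonneg (by positivity)]
  have := hL.hausdorffMeasure_image_le (d := 1) (by norm_num) G
  rw [hausdorffMeasure_real, ENNReal.rpow_one] at this
  exact this

/-- A bounded set covered by `N` scaled copies of itself, with ratio `N⁻²`, is null. -/
theorem null_of_cover (hN : 3 ≤ N) (G : Set ℝ) (hG : volume G ≠ ∞) (c : ℕ → ℝ)
    (hcov : G ⊆ ⋃ i ∈ Finset.range N, (fun y => c i + y / (N : ℝ) ^ 2) '' G) :
    (volume : Measure ℝ) G = 0 := by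
  have hN3 : (3 : ℝ) ≤ N := by exact_mod_cast hN
  have h1 : (volume : Measure ℝ) G ≤ ENNReal.ofReal (1 / (N : ℝ)) * volume G := by
    calc (volume : Measure ℝ) G
        ≤ volume (⋃ i ∈ Finset.range N, (fun y => c i + y / (N : ℝ) ^ 2) '' G) :=
          measure_mono hcov
      _ ≤ ∑ i ∈ Finset.range N, volume ((fun y => c i + y / (N : ℝ) ^ 2) '' G) :=
          measure_biUnion_finset_le _ _
      _ ≤ ∑ _i ∈ Finset.range N, ENNReal.ofReal (1 / (N : ℝ) ^ 2) * volume G :=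
          Finset.sum_le_sum fun i _ => measure_affine_le G (c i) hN
      _ = ENNReal.ofReal (1 / (N : ℝ)) * volume G := by
          rw [Finset.sum_const, Finset.card_range, nsmul_eq_mul, ← mul_assoc,
            ← ENNReal.ofReal_natCast, ← ENNReal.ofReal_mul (by positivity)]
          congr 2
          field_simp
  by_contra hne
  have h2 : ENNReal.ofReal (1 / (N : ℝ)) < 1 := by
    rw [ENNReal.ofReal_lt_one, div_lt_one (by linarith)]
    linarith
  have h3 : ENNReal.ofReal (1 / (N : ℝ)) * volume G < 1 * volume G :=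
    ENNReal.mul_lt_mul_left hne hG h2
  rw [one_mul] at h3
  exact absurd h1 (not_le.mpr h3)

theorem abs_gfun_le (hN : 3 ≤ N) {κ : ℝ} (hκ : 0 ≤ κ) (t : ℝ) : |gfun κ N t| ≤ 2 * κ := by
  have hN3 : (3 : ℝ) ≤ N := by exact_mod_cast hN
  unfold gfun
  rw [abs_mul, abs_of_nonneg hκ, mul_comm]
  apply mul_le_mul_of_nonneg_right _ hκ
  have h1 : ‖∑' k : ℕ, (-1 : ℝ) ^ k * saw N k t‖ ≤ (1 - 1 / (N : ℝ))⁻¹ :=
    tsum_of_norm_bounded (hasSum_geometric_of_lt_one (by positivity) (one_div_lt_one hN))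
      (fun k => norm_term_le N k t)
  rw [Real.norm_eq_abs] at h1
  refine le_trans h1 ?_
  rw [inv_le_comm₀ (by have := one_div_lt_one hN; linarith) (by norm_num)]
  have : 1 / (N : ℝ) ≤ 1 / 3 := one_div_le_one_div_of_le (by norm_num) hN3
  linarith

/-- The projection of the graph to the second axis is null. -/
theorem null_proj_zero (hN : 3 ≤ N) {κ : ℝ} (hκ : 0 ≤ κ) :
    (volume : Measure ℝ) (gfun κ N '' Ico 0 1) = 0 := by
  have hN3 : (3 : ℝ) ≤ N := by exact_mod_cast hN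
  apply null_of_cover hN _ _ (fun i => κ * (i / N))
  · rintro _ ⟨t, ht, rfl⟩
    have hfl0 : ⌊t⌋ = 0 := Int.floor_eq_zero_iff.mpr ht
    have h0 : (0 : ℤ) ≤ ⌊(N : ℝ) * t⌋ := Int.floor_nonneg.mpr (mul_nonneg (by linarith) ht.1)
    obtain ⟨i, hi⟩ := Int.eq_ofNat_of_zero_le h0
    have hiN : i < N := by
      have h1 : (⌊(N : ℝ) * t⌋ : ℝ) ≤ N * t := Int.floor_le _
      rw [hi] at h1
      have h2 : (N : ℝ) * t < N := by
        have := ht.2
        nlinarith
      have h3 : ((i : ℤ) : ℝ) < N := lt_of_le_of_lt h1 h2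
      exact_mod_cast h3
    rw [mem_iUnion₂]
    refine ⟨i, Finset.mem_range.mpr hiN, gfun κ N ((N : ℝ) ^ 2 * t), ?_, ?_⟩
    · exact ⟨Int.fract ((N : ℝ) ^ 2 * t), ⟨Int.fract_nonneg _, Int.fract_lt_one _⟩, gfun_fract _ _ _⟩
    · rw [gfun_selfsim κ hN t, hfl0, hi]
      push_cast
      ring
  · apply ne_of_lt
    refine lt_of_le_of_lt (measure_mono (t := Icc (-(2 * κ)) (2 * κ)) ?_) (by simp)
    rintro _ ⟨t, _, rfl⟩
    exact abs_le.mp (abs_gfun_le hN hκ t)

/-- The projection of the graph along slope `κ` is null. -/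
theorem null_proj_one (hN : 3 ≤ N) {κ : ℝ} (hκ : 0 ≤ κ) :
    (volume : Measure ℝ) ((fun t => gfun κ N t - κ * t) '' Ico 0 1) = 0 := by
  have hN3 : (3 : ℝ) ≤ N := by exact_mod_cast hN
  have hN0 : (N : ℝ) ≠ 0 := by linarith
  apply null_of_cover hN _ _ (fun i => - (κ * (i / (N : ℝ) ^ 2)))
  · rintro _ ⟨t, ht, rfl⟩
    have hfl0 : ⌊t⌋ = 0 := Int.floor_eq_zero_iff.mpr ht
    -- second digit
    obtain ⟨a, ha⟩ : ∃ a : ℤ, a = ⌊(N : ℝ) * t⌋ := ⟨_, rfl⟩
    obtain ⟨b, hb⟩ : ∃ b : ℤ, b = ⌊(N : ℝ) ^ 2 * t⌋ := ⟨_, rfl⟩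
    have ha1 : (a : ℝ) ≤ N * t := by rw [ha]; exact Int.floor_le _
    have ha2 : (N : ℝ) * t < a + 1 := by rw [ha]; exact Int.lt_floor_add_one _
    have hb1 : (b : ℝ) ≤ (N : ℝ) ^ 2 * t := by rw [hb]; exact Int.floor_le _
    have hb2 : (N : ℝ) ^ 2 * t < b + 1 := by rw [hb]; exact Int.lt_floor_add_one _
    have hd0 : (0 : ℤ) ≤ b - N * a := by
      have h1 : (N : ℤ) * a ≤ b := by
        rw [hb, Int.le_floor]
        push_cast
        nlinarith
      linarith
    obtain ⟨i, hi⟩ := Int.eq_ofNat_of_zero_le hd0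
    have hiN : i < N := by
      have h1 : ((b - N * a : ℤ) : ℝ) < N := by
        push_cast
        nlinarith
      rw [hi] at h1
      exact_mod_cast h1
    rw [mem_iUnion₂]
    refine ⟨i, Finset.mem_range.mpr hiN, gfun κ N ((N : ℝ) ^ 2 * t) -
      κ * Int.fract ((N : ℝ) ^ 2 * t), ?_, ?_⟩
    · refine ⟨Int.fract ((N : ℝ) ^ 2 * t), ⟨Int.fract_nonneg _, Int.fract_lt_one _⟩, ?_⟩
      simp only [gfun_fract]
    · have hir : (i : ℝ) = b - N * a := by
        have : ((i : ℤ) : ℝ) = ((b - N * a : ℤ) : ℝ) := by rw [hi]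
        push_cast at this
        exact this
      rw [hir]
      have hss := gfun_selfsim κ hN t
      rw [hfl0, ← ha] at hss
      have hfr : Int.fract ((N : ℝ) ^ 2 * t) = (N : ℝ) ^ 2 * t - b := by
        rw [hb]; rfl
      simp only
      rw [hfr, hss]
      push_cast
      field_simp
      ring
  · apply ne_of_lt
    refine lt_of_le_of_lt (measure_mono (t := Icc (-(3 * κ)) (3 * κ)) ?_) (by simp)
    rintro _ ⟨t, ht, rfl⟩
    have h1 := abs_le.mp (abs_gfun_le hN hκ t)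
    have h2 := ht.1
    have h3 := ht.2
    constructor
    · simp only; nlinarith
    · simp only; nlinarith

end Pool.Agent.helper29.Conical
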