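import Mathlib
import Pool.Agent.helper29.Conical.Saw

set_option autoImplicit false

namespace Pool.Agent.helper29.Conical

open Set

variable {N : ℕ}

theorem exists_level (hN : 3 ≤ N) {t t' : ℝ} (ht : t ∈ Ico (0 : ℝ) 1) (ht' : t' ∈ Ico (0 : ℝ) 1)
    (h : t < t') : ∃ L : ℕ, 1 ≤ L ∧ (∀ j < L, ⌊(N : ℝ) ^ j * t'⌋ = ⌊(N : ℝ) ^ j * t⌋) ∧
      ⌊(N : ℝ) ^ L * t⌋ < ⌊(N : ℝ) ^ L * t'⌋ := by
  have hN3 : (3 : ℝ) ≤ N := by exact_mod_cast hN
  have hex : ∃ L : ℕ, ⌊(N : ℝ) ^ L * t'⌋ ≠ ⌊(N : ℝ) ^ L * t⌋ := by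
    obtain ⟨L, hL⟩ := pow_unbounded_of_one_lt (1 / (t' - t)) (show (1 : ℝ) < N by linarith)
    refine ⟨L, fun heq => ?_⟩
    have h1 : 1 < (N : ℝ) ^ L * (t' - t) := by
      rwa [div_lt_iff₀ (by linarith)] at hL
    have h2 := Int.floor_le ((N : ℝ) ^ L * t)
    have h3 := Int.lt_floor_add_one ((N : ℝ) ^ L * t')
    rw [heq] at h3
    linarith
  classical
  refine ⟨Nat.find hex, ?_, ?_, ?_⟩
  · rw [Nat.one_le_iff_ne_zero]
    intro h0
    have h1 := Nat.find_spec hex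
    rw [h0] at h1
    apply h1
    simp only [pow_zero, one_mul]
    rw [Int.floor_eq_zero_iff.mpr ht, Int.floor_eq_zero_iff.mpr ht']
  · intro j hj
    have := Nat.find_min hex hj
    simpa using this
  · have h1 := Nat.find_spec hex
    refine lt_of_le_of_ne ?_ (Ne.symm h1)
    apply Int.floor_le_floor
    apply mul_le_mul_of_nonneg_left h.le (by positivity)

theorem bad_pair (hN : 3 ≤ N) {κ ε : ℝ} (hκ : 0 < κ) (hκε : κ ≤ ε / 8) {t t' : ℝ}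
    (ht : t ∈ Ico (0 : ℝ) 1) (ht' : t' ∈ Ico (0 : ℝ) 1) (h : t < t')
    (hbad : ε * (t' - t) < |gfun κ N t' - gfun κ N t|) :
    ∃ L : ℕ, t' - t < 1 / 4 / (N : ℝ) ^ L ∧
      κ * (1 / 4 / (N : ℝ) ^ L) ≤ |gfun κ N t' - gfun κ N t| ∧
      (Even L → gfun κ N t' - gfun κ N t < 0) ∧ (Odd L → 0 < gfun κ N t' - gfun κ N t) := by
  have hN3 : (3 : ℝ) ≤ N := by exact_mod_cast hN
  have hN0 : (0 : ℝ) < N := by linarith
  obtain ⟨L, hL1, hL2, hL3⟩ := exists_level hN ht ht' h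
  have hmain := gfun_sub κ hN t t' L hL2 hκ.le
  obtain ⟨m, hm⟩ : ∃ m : ℤ, m = ⌊(N : ℝ) ^ L * t'⌋ - ⌊(N : ℝ) ^ L * t⌋ := ⟨_, rfl⟩
  rw [← hm] at hmain
  have hm1 : 1 ≤ m := by omega
  obtain ⟨q, hq⟩ : ∃ q : ℝ, q = 1 / (N : ℝ) ^ L := ⟨_, rfl⟩
  have hq0 : 0 < q := by rw [hq]; positivity
  have hpow : (0 : ℝ) < (N : ℝ) ^ L := by positivity
  have hm' : (1 : ℝ) ≤ m := by exact_mod_cast hm1
  -- bounds on `h`
  have hf1 := Int.floor_le ((N : ℝ) ^ L * t)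
  have hf2 := Int.lt_floor_add_one ((N : ℝ) ^ L * t)
  have hf3 := Int.floor_le ((N : ℝ) ^ L * t')
  have hf4 := Int.lt_floor_add_one ((N : ℝ) ^ L * t')
  have hmr : (m : ℝ) = (⌊(N : ℝ) ^ L * t'⌋ : ℝ) - (⌊(N : ℝ) ^ L * t⌋ : ℝ) := by
    rw [hm]; push_cast; ring
  have hb1 : (m - 1) * q < t' - t := by
    rw [hq, mul_one_div, div_lt_iff₀ hpow]
    nlinarith
  have hqe : ∀ x : ℝ, x / (N : ℝ) ^ L = x * q := by
    intro x; rw [hq]; ring
  rw [hqe, hqe] at hmain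
  obtain ⟨D, hD⟩ : ∃ D : ℝ, D = gfun κ N t' - gfun κ N t := ⟨_, rfl⟩
  rw [← hD] at hmain hbad ⊢
  obtain ⟨δ, hδ⟩ : ∃ δ : ℝ, δ = t' - t := ⟨_, rfl⟩
  rw [← hδ] at hmain hbad hb1 ⊢
  have hδ0 : 0 < δ := by rw [hδ]; linarith
  rw [abs_le] at hmain
  obtain ⟨hm2, hm3⟩ := hmain
  have hκq : 0 < κ * q := mul_pos hκ hq0
  have hκδ : 0 < κ * δ := mul_pos hκ hδ0
  have hεδ : 8 * (κ * δ) ≤ ε * δ := by nlinarith
  have hmκq : κ * q ≤ κ * q * m := by nlinarith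
  -- `|D| ≤ κ δ + (3/2) κ m q`
  have hs : (-1 : ℝ) ^ L = 1 ∨ (-1 : ℝ) ^ L = -1 := neg_one_pow_eq_or ℝ L
  have hDle : |D| ≤ κ * δ + 3 / 2 * (κ * q * m) := by
    rw [abs_le]
    rcases hs with hs | hs <;> rw [hs] at hm2 hm3 <;> constructor <;> nlinarith
  have h7 : 7 * (κ * δ) < 3 / 2 * (κ * q * m) := by linarith
  have hδm : 7 * δ < 3 / 2 * (q * m) := by
    have : κ * (7 * δ) < κ * (3 / 2 * (q * m)) := by linarith
    exact lt_of_mul_lt_mul_left this hκ.le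
  have hmeq : m = 1 := by
    by_contra hne
    have h2 : 2 ≤ m := by omega
    have h2' : (2 : ℝ) ≤ m := by exact_mod_cast h2
    nlinarith
  have hmr1 : (m : ℝ) = 1 := by exact_mod_cast hmeq
  rw [hmr1] at hm2 hm3 hδm
  have hδq : δ < 1 / 4 * q := by linarith
  have hκδq : κ * δ < κ * (1 / 4 * q) := mul_lt_mul_of_pos_left hδq hκ
  refine ⟨L, ?_, ?_, ?_, ?_⟩
  · rw [hqe]; exact hδq
  · rw [hqe]
    rcases hs with hs | hs <;> rw [hs] at hm2 hm3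
    · rw [le_abs]; right; linarith
    · rw [le_abs]; left; linarith
  · intro he
    rw [he.neg_one_pow] at hm2 hm3
    linarith
  · intro ho
    rw [ho.neg_one_pow] at hm2 hm3
    linarith

/-- A secant with large slope comes from a jump of a definite parity. -/
theorem bad_high (hN : 3 ≤ N) {κ ε : ℝ} (hκ : 0 < κ) (hκε : κ ≤ ε / 8) {t t' : ℝ}
    (ht : t ∈ Ico (0 : ℝ) 1) (ht' : t' ∈ Ico (0 : ℝ) 1)
    (hbad : ε * (t' - t) ^ 2 < (gfun κ N t' - gfun κ N t) * (t' - t)) :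
    ∃ L : ℕ, Odd L ∧ |t' - t| < 1 / 4 / (N : ℝ) ^ L ∧
      κ * (1 / 4 / (N : ℝ) ^ L) ≤ |gfun κ N t' - gfun κ N t| := by
  have hε : 0 < ε := by linarith
  have hne : t' - t ≠ 0 := by
    intro h0; rw [h0] at hbad; simp at hbad
  rcases lt_or_gt_of_ne hne with hlt | hgt
  · have h1 : ε * (t - t') < |gfun κ N t - gfun κ N t'| := by
      have h2 : ε * (t - t') * (t - t') < (gfun κ N t - gfun κ N t') * (t - t') := by nlinarith
      have h3 := lt_of_mul_lt_mul_right h2 (by linarith)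
      exact lt_of_lt_of_le h3 (le_abs_self _)
    obtain ⟨L, hL1, hL2, hL3, hL4⟩ := bad_pair hN hκ hκε ht' ht (by linarith) h1
    refine ⟨L, ?_, ?_, ?_⟩
    · by_contra ho
      have he := hL3 (Nat.not_odd_iff_even.mp ho)
      have h5 : 0 < ε * (t' - t) ^ 2 := by positivity
      nlinarith
    · rw [abs_sub_comm, abs_of_pos (by linarith)]; exact hL1
    · rw [abs_sub_comm]; exact hL2
  · have h1 : ε * (t' - t) < |gfun κ N t' - gfun κ N t| := by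
      have h2 : ε * (t' - t) * (t' - t) < (gfun κ N t' - gfun κ N t) * (t' - t) := by nlinarith
      have h3 := lt_of_mul_lt_mul_right h2 (by linarith)
      exact lt_of_lt_of_le h3 (le_abs_self _)
    obtain ⟨L, hL1, hL2, hL3, hL4⟩ := bad_pair hN hκ hκε ht ht' (by linarith) h1
    refine ⟨L, ?_, ?_, hL2⟩
    · by_contra ho
      have he := hL3 (Nat.not_odd_iff_even.mp ho)
      have h5 : 0 < ε * (t' - t) ^ 2 := by positivity
      nlinarith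
    · rw [abs_of_pos (by linarith)]; exact hL1

theorem bad_low (hN : 3 ≤ N) {κ ε : ℝ} (hκ : 0 < κ) (hκε : κ ≤ ε / 8) {t t' : ℝ}
    (ht : t ∈ Ico (0 : ℝ) 1) (ht' : t' ∈ Ico (0 : ℝ) 1)
    (hbad : (gfun κ N t' - gfun κ N t) * (t' - t) < -(ε * (t' - t) ^ 2)) :
    ∃ L : ℕ, Even L ∧ |t' - t| < 1 / 4 / (N : ℝ) ^ L ∧
      κ * (1 / 4 / (N : ℝ) ^ L) ≤ |gfun κ N t' - gfun κ N t| := by
  have hε : 0 < ε := by linarith
  have hne : t' - t ≠ 0 := by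
    intro h0; rw [h0] at hbad; simp at hbad
  rcases lt_or_gt_of_ne hne with hlt | hgt
  · have h1 : ε * (t - t') < |gfun κ N t - gfun κ N t'| := by
      have h2 : ε * (t - t') * (t - t') < (-(gfun κ N t - gfun κ N t')) * (t - t') := by nlinarith
      have h3 := lt_of_mul_lt_mul_right h2 (by linarith)
      exact lt_of_lt_of_le h3 (neg_le_abs _)
    obtain ⟨L, hL1, hL2, hL3, hL4⟩ := bad_pair hN hκ hκε ht' ht (by linarith) h1
    refine ⟨L, ?_, ?_, ?_⟩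
    · by_contra ho
      have he := hL4 (Nat.not_even_iff_odd.mp ho)
      have h5 : 0 < ε * (t' - t) ^ 2 := by positivity
      nlinarith
    · rw [abs_sub_comm, abs_of_pos (by linarith)]; exact hL1
    · rw [abs_sub_comm]; exact hL2
  · have h1 : ε * (t' - t) < |gfun κ N t' - gfun κ N t| := by
      have h2 : ε * (t' - t) * (t' - t) < (-(gfun κ N t' - gfun κ N t)) * (t' - t) := by nlinarith
      have h3 := lt_of_mul_lt_mul_right h2 (by linarith)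
      exact lt_of_lt_of_le h3 (neg_le_abs _)
    obtain ⟨L, hL1, hL2, hL3, hL4⟩ := bad_pair hN hκ hκε ht ht' (by linarith) h1
    refine ⟨L, ?_, ?_, hL2⟩
    · by_contra ho
      have he := hL4 (Nat.not_even_iff_odd.mp ho)
      have h5 : 0 < ε * (t' - t) ^ 2 := by positivity
      nlinarith
    · rw [abs_of_pos (by linarith)]; exact hL1

/-- At a given point and scale, secants with large positive slope and secants with large negative
slope do not both occur (apart from very short ones). -/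
theorem dichotomy (hN : 3 ≤ N) {κ ε η : ℝ} (hκ : 0 < κ) (hκε : κ ≤ ε / 8) (hη : 0 < η)
    (hηN : 1 ≤ η * κ * N) {t₀ : ℝ} (ht₀ : t₀ ∈ Ico (0 : ℝ) 1) (r : ℝ) :
    (∀ t ∈ Ico (0 : ℝ) 1, η * r ≤ |t - t₀| → |gfun κ N t - gfun κ N t₀| ≤ r →
      (gfun κ N t - gfun κ N t₀) * (t - t₀) ≤ ε * (t - t₀) ^ 2) ∨
    (∀ t ∈ Ico (0 : ℝ) 1, η * r ≤ |t - t₀| → |gfun κ N t - gfun κ N t₀| ≤ r →
      -(ε * (t - t₀) ^ 2) ≤ (gfun κ N t - gfun κ N t₀) * (t - t₀)) := by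
  have hN3 : (3 : ℝ) ≤ N := by exact_mod_cast hN
  have hN0 : (0 : ℝ) < N := by linarith
  by_contra hcon
  push Not at hcon
  obtain ⟨⟨t₁, h11, h12, h13, h14⟩, ⟨t₂, h21, h22, h23, h24⟩⟩ := hcon
  obtain ⟨L₁, ho, h15, h16⟩ := bad_high hN hκ hκε ht₀ h11 h14
  obtain ⟨L₂, he, h25, h26⟩ := bad_low hN hκ hκε ht₀ h21 h24
  have hne : L₁ ≠ L₂ := by
    rintro rfl
    exact (Nat.not_even_iff_odd.mpr ho) he
  have key : ∀ (L L' : ℕ), L < L' → κ * (1 / 4 / (N : ℝ) ^ L) ≤ r →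
      η * r < 1 / 4 / (N : ℝ) ^ L' → False := by
    intro L L' hLL h1 h2
    have hp : (0 : ℝ) < (N : ℝ) ^ L := by positivity
    have h3 : 1 / 4 / (N : ℝ) ^ L' ≤ 1 / 4 / (N : ℝ) ^ (L + 1) := by
      apply div_le_div_of_nonneg_left (by norm_num) (by positivity)
      exact pow_le_pow_right₀ (by linarith) hLL
    have h4 : η * (κ * (1 / 4 / (N : ℝ) ^ L)) ≤ η * r := mul_le_mul_of_nonneg_left h1 hη.le
    have h5 : η * (κ * (1 / 4 / (N : ℝ) ^ L)) < 1 / 4 / (N : ℝ) ^ (L + 1) := by linarith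
    have h6 : η * (κ * (1 / 4 / (N : ℝ) ^ L)) * (4 * (N : ℝ) ^ (L + 1)) <
        1 / 4 / (N : ℝ) ^ (L + 1) * (4 * (N : ℝ) ^ (L + 1)) :=
      mul_lt_mul_of_pos_right h5 (by positivity)
    have h7 : η * (κ * (1 / 4 / (N : ℝ) ^ L)) * (4 * (N : ℝ) ^ (L + 1)) = η * κ * N := by
      rw [pow_succ]; field_simp
    have h8 : 1 / 4 / (N : ℝ) ^ (L + 1) * (4 * (N : ℝ) ^ (L + 1)) = 1 := by
      field_simp
    rw [h7, h8] at h6
    linarith
  rcases lt_or_gt_of_ne hne with hlt | hgt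
  · exact key L₁ L₂ hlt (le_trans h16 h13) (lt_of_le_of_lt h22 h25)
  · exact key L₂ L₁ hgt (le_trans h26 h23) (lt_of_le_of_lt h12 h15)

end Pool.Agent.helper29.Conical
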