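import Mathlib

set_option autoImplicit false

namespace Pool.Agent.helper29.Conical

open Set MeasureTheory Measure Filter Topology
open scoped ENNReal NNReal

/-- If a function is differentiable with nonzero derivative on `S` and maps `S` to a null set then
`S` is null. -/
theorem null_of_null_image (p : ℝ → ℝ) (S : Set ℝ) (hp : ∀ t ∈ S, DifferentiableAt ℝ p t)
    (hne : ∀ t ∈ S, fderiv ℝ p t ≠ 0) (hnull : (volume : Measure ℝ) (p '' S) = 0) :
    (volume : Measure ℝ) S = 0 := by
  classical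
  rcases S.eq_empty_or_nonempty with rfl | hS
  · simp
  obtain ⟨T, A, -, -, hcov, happ, hA⟩ :=
    exists_partition_approximatesLinearOn_of_hasFDerivWithinAt p S (fderiv ℝ p)
      (fun t ht => (hp t ht).hasFDerivAt.hasFDerivWithinAt)
      (fun A => if A = 0 then 1 else ‖A‖₊ / 2)
      (fun A => by
        by_cases h : A = 0
        · simp [h]
        · simp [h])
  have hpiece : ∀ n, (volume : Measure ℝ) (S ∩ T n) = 0 := by
    intro n
    have hAn : A n ≠ 0 := by
      obtain ⟨y, hy, hyA⟩ := hA hS n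
      rw [hyA]; exact hne y hy
    have hAn' : (0 : ℝ) < ‖A n‖ := norm_pos_iff.mpr hAn
    have happn := happ n
    simp only [hAn, if_false] at happn
    have hanti : AntilipschitzWith (2 / ‖A n‖₊) (fun x : ↥(S ∩ T n) => p x) := by
      apply AntilipschitzWith.of_le_mul_dist
      intro x y
      have h1 := happn x x.2 y y.2
      have h2 : ‖A n‖ * ‖(x : ℝ) - y‖ ≤ ‖(A n) ((x : ℝ) - y)‖ := by
        have h3 : ∀ z : ℝ, (A n) z = z * (A n) 1 := by
          intro z
          have := (A n).map_smul z 1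
          simpa using this
        have h4 : ‖A n‖ ≤ ‖(A n) 1‖ := by
          apply ContinuousLinearMap.opNorm_le_bound _ (norm_nonneg _)
          intro z
          rw [h3 z, norm_mul, mul_comm]
        rw [h3, norm_mul, mul_comm]
        exact mul_le_mul_of_nonneg_left h4 (norm_nonneg _)
      have h5 : ‖(A n) ((x : ℝ) - y)‖ ≤ ‖p x - p y‖ + ‖p x - p y - (A n) ((x : ℝ) - y)‖ := by
        have := norm_sub_le (p x - p y) (p x - p y - (A n) ((x : ℝ) - y))
        simpa using this
      have h11 : (((‖A n‖₊ / 2 : ℝ≥0)) : ℝ) = ‖A n‖ / 2 := by simp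
      rw [h11] at h1
      have h6 : ‖A n‖ / 2 * ‖(x : ℝ) - y‖ ≤ ‖p x - p y‖ := by
        linarith
      rw [Subtype.dist_eq, Real.dist_eq, Real.dist_eq, ← Real.norm_eq_abs, ← Real.norm_eq_abs]
      have h12 : (((2 / ‖A n‖₊ : ℝ≥0)) : ℝ) = 2 / ‖A n‖ := by simp
      rw [h12, div_mul_eq_mul_div, le_div_iff₀ hAn']
      linarith
    have h7 := hanti.le_hausdorffMeasure_image (d := 1) (by norm_num) univ
    have h8 : (fun x : ↥(S ∩ T n) => p x) '' univ = p '' (S ∩ T n) := by
      ext y; simp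
    have h9 : μH[1] (p '' (S ∩ T n)) = 0 := by
      rw [hausdorffMeasure_real]
      exact measure_mono_null (image_mono inter_subset_left) hnull
    rw [h8, h9, mul_zero] at h7
    have h10 : μH[1] ((Subtype.val : ↥(S ∩ T n) → ℝ) '' univ) =
        μH[1] (univ : Set ↥(S ∩ T n)) :=
      isometry_subtype_coe.hausdorffMeasure_image (Or.inl (by norm_num)) univ
    rw [nonpos_iff_eq_zero.mp h7, image_univ, Subtype.range_coe, hausdorffMeasure_real] at h10
    exact h10
  have hSU : S ⊆ ⋃ n, S ∩ T n := by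
    intro x hx
    obtain ⟨n, hn⟩ := mem_iUnion.mp (hcov hx)
    exact mem_iUnion.mpr ⟨n, hx, hn⟩
  exact measure_mono_null hSU (measure_iUnion_null hpiece)

/-- Sard type lemma. -/
theorem hausdorff_image_null_of_deriv_zero {F : Type*} [NormedAddCommGroup F] [NormedSpace ℝ F]
    [MeasurableSpace F] [BorelSpace F] [SecondCountableTopology F] (γ : ℝ → F) (S : Set ℝ)
    (hγ : ∀ t ∈ S, HasFDerivAt γ (0 : ℝ →L[ℝ] F) t) : μH[1] (γ '' S) = 0 := by
  -- bounded case
  have hbdd : ∀ R : ℕ, μH[1] (γ '' (S ∩ Icc (-(R : ℝ)) R)) = 0 := by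
    intro R
    obtain ⟨S', hS'⟩ : ∃ S', S' = S ∩ Icc (-(R : ℝ)) R := ⟨_, rfl⟩
    rw [← hS']
    rcases S'.eq_empty_or_nonempty with he | hne
    · rw [he]; simp
    have hfin : (volume : Measure ℝ) S' ≠ ∞ := by
      apply ne_of_lt
      refine lt_of_le_of_lt (measure_mono (t := Icc (-(R : ℝ)) R) ?_) (by simp)
      rw [hS']; exact inter_subset_right
    have hle : ∀ δ : ℝ≥0, 0 < δ → μH[1] (γ '' S') ≤ δ * volume S' := by
      intro δ hδ
      obtain ⟨T, A, hdisj, hmeas, hcov, happ, hA⟩ :=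
        exists_partition_approximatesLinearOn_of_hasFDerivWithinAt γ S' (fun _ => 0)
          (fun t ht => (hγ t (by rw [hS'] at ht; exact ht.1)).hasFDerivWithinAt)
          (fun _ => δ) (fun _ => hδ.ne')
      have hA0 : ∀ n, A n = 0 := by
        intro n
        obtain ⟨y, _, hy⟩ := hA hne n
        exact hy
      have hpiece : ∀ n, μH[1] (γ '' (S' ∩ T n)) ≤ δ * volume (S' ∩ T n) := by
        intro n
        have h1 := happ n
        rw [hA0 n] at h1
        have h2 : LipschitzOnWith δ γ (S' ∩ T n) := by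
          apply LipschitzOnWith.of_dist_le_mul
          intro x hx y hy
          have := h1 x hx y hy
          simpa [dist_eq_norm] using this
        have h3 := h2.hausdorffMeasure_image_le (d := 1) (by norm_num)
        rw [hausdorffMeasure_real, ENNReal.rpow_one] at h3
        exact h3
      have hcov' : γ '' S' ⊆ ⋃ n, γ '' (S' ∩ T n) := by
        rintro _ ⟨x, hx, rfl⟩
        obtain ⟨n, hn⟩ := mem_iUnion.mp (hcov hx)
        exact mem_iUnion.mpr ⟨n, x, ⟨hx, hn⟩, rfl⟩
      calc μH[1] (γ '' S') ≤ μH[1] (⋃ n, γ '' (S' ∩ T n)) := measure_mono hcov'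
        _ ≤ ∑' n, μH[1] (γ '' (S' ∩ T n)) := measure_iUnion_le _
        _ ≤ ∑' n, δ * volume (S' ∩ T n) := ENNReal.tsum_le_tsum hpiece
        _ = δ * ∑' n, volume (S' ∩ T n) := ENNReal.tsum_mul_left
        _ = δ * (volume.restrict S') (⋃ n, T n) := by
            rw [measure_iUnion hdisj hmeas]
            congr 1
            apply tsum_congr
            intro n
            rw [Measure.restrict_apply (hmeas n), inter_comm]
        _ ≤ δ * volume S' := by
            refine mul_le_mul' le_rfl ?_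
            rw [Measure.restrict_apply (MeasurableSet.iUnion hmeas)]
            exact measure_mono inter_subset_right
    by_contra hpos
    have hpos' : 0 < μH[1] (γ '' S') := pos_iff_ne_zero.mpr hpos
    have hV : volume S' ≠ 0 := by
      intro h0
      have := hle 1 one_pos
      rw [h0, mul_zero] at this
      exact hpos (nonpos_iff_eq_zero.mp this)
    -- choose `δ` small
    have htend : Tendsto (fun n : ℕ => ((1 / ((n : ℝ≥0) + 1) : ℝ≥0) : ℝ≥0∞) * volume S') atTop
        (𝓝 (0 * volume S')) := by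
      apply ENNReal.Tendsto.mul_const _ (Or.inr hfin)
      have : Tendsto (fun n : ℕ => (1 / ((n : ℝ≥0) + 1) : ℝ≥0)) atTop (𝓝 0) :=
        tendsto_one_div_add_atTop_nhds_zero_nat (𝕜 := ℝ≥0)
      have h2 := ENNReal.tendsto_coe.mpr this
      rw [ENNReal.coe_zero] at h2
      exact h2
    rw [zero_mul] at htend
    have hle0 : μH[1] (γ '' S') ≤ 0 := by
      apply ge_of_tendsto' htend
      intro n
      exact hle _ (by positivity)
    exact hpos (nonpos_iff_eq_zero.mp hle0)
  have hcov : γ '' S ⊆ ⋃ R : ℕ, γ '' (S ∩ Icc (-(R : ℝ)) R) := by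
    rintro _ ⟨x, hx, rfl⟩
    obtain ⟨R, hR⟩ := exists_nat_ge |x|
    exact mem_iUnion.mpr ⟨R, x, ⟨hx, abs_le.mp hR⟩, rfl⟩
  exact measure_mono_null hcov (measure_iUnion_null hbdd)

/-- A Lipschitz curve meets a set with two null projections in an `H¹`-null set. -/
theorem curve_null (γ : ℝ → EuclideanSpace ℝ (Fin 2)) (K : ℝ≥0) (hγ : LipschitzWith K γ)
    (S : Set ℝ) (κ : ℝ) (hκ : κ ≠ 0)
    (h0 : (volume : Measure ℝ) ((fun t => (γ t).ofLp 1) '' S) = 0)
    (h1 : (volume : Measure ℝ) ((fun t => (γ t).ofLp 1 - κ * (γ t).ofLp 0) '' S) = 0) :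
    μH[1] (γ '' S) = 0 := by
  have hae : ∀ᵐ t : ℝ, DifferentiableAt ℝ γ t := hγ.ae_differentiableAt
  -- the linear functionals
  let ℓ₀ : EuclideanSpace ℝ (Fin 2) →L[ℝ] ℝ := EuclideanSpace.proj 1
  let ℓ₁ : EuclideanSpace ℝ (Fin 2) →L[ℝ] ℝ := EuclideanSpace.proj 1 - κ • EuclideanSpace.proj 0
  have hℓ₀ : ∀ x, ℓ₀ x = x.ofLp 1 := fun x => rfl
  have hℓ₁ : ∀ x, ℓ₁ x = x.ofLp 1 - κ * x.ofLp 0 := fun x => rfl
  let Z : Set ℝ := {t | t ∈ S ∧ ¬ DifferentiableAt ℝ γ t}
  let S0 : Set ℝ := {t | t ∈ S ∧ DifferentiableAt ℝ γ t ∧ fderiv ℝ γ t = 0}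
  let Sp : Set ℝ := {t | t ∈ S ∧ DifferentiableAt ℝ γ t ∧ ℓ₀.comp (fderiv ℝ γ t) ≠ 0}
  let Sq : Set ℝ := {t | t ∈ S ∧ DifferentiableAt ℝ γ t ∧ ℓ₁.comp (fderiv ℝ γ t) ≠ 0}
  have hcov : S ⊆ Z ∪ S0 ∪ Sp ∪ Sq := by
    intro t ht
    by_cases hd : DifferentiableAt ℝ γ t
    · by_cases hp : ℓ₀.comp (fderiv ℝ γ t) = 0
      · by_cases hq : ℓ₁.comp (fderiv ℝ γ t) = 0
        · left; left; right
          refine ⟨ht, hd, ?_⟩
          apply ContinuousLinearMap.ext_ring
          ext i
          have e1 : ℓ₀ (fderiv ℝ γ t 1) = 0 := by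
            have := congrArg (fun L : ℝ →L[ℝ] ℝ => L 1) hp
            simpa using this
          have e2 : ℓ₁ (fderiv ℝ γ t 1) = 0 := by
            have := congrArg (fun L : ℝ →L[ℝ] ℝ => L 1) hq
            simpa using this
          rw [hℓ₀] at e1
          rw [hℓ₁, e1, zero_sub, neg_eq_zero] at e2
          have e3 := (mul_eq_zero.mp e2).resolve_left hκ
          fin_cases i
          · simpa using e3
          · simpa using e1
        · right; exact ⟨ht, hd, hq⟩
      · left; right; exact ⟨ht, hd, hp⟩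
    · left; left; left; exact ⟨ht, hd⟩
  have hZ : (volume : Measure ℝ) Z = 0 := by
    refine measure_mono_null (t := {t | ¬ DifferentiableAt ℝ γ t}) (fun t ht => ht.2) ?_
    exact hae
  have hnullimg : ∀ W : Set ℝ, (volume : Measure ℝ) W = 0 → μH[1] (γ '' W) = 0 := by
    intro W hW
    have := hγ.hausdorffMeasure_image_le (d := 1) (by norm_num) W
    rw [hausdorffMeasure_real, hW, mul_zero] at this
    exact nonpos_iff_eq_zero.mp this
  have hS0 : μH[1] (γ '' S0) = 0 := by
    apply hausdorff_image_null_of_deriv_zero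
    intro t ht
    have := ht.2.1.hasFDerivAt
    rwa [ht.2.2] at this
  have hSp : (volume : Measure ℝ) Sp = 0 := by
    apply null_of_null_image (fun t => ℓ₀ (γ t)) Sp
    · intro t ht
      exact ℓ₀.differentiableAt.comp t ht.2.1
    · intro t ht
      have : fderiv ℝ (fun t => ℓ₀ (γ t)) t = ℓ₀.comp (fderiv ℝ γ t) :=
        (ℓ₀.hasFDerivAt.comp t ht.2.1.hasFDerivAt).fderiv
      rw [this]; exact ht.2.2
    · exact measure_mono_null (image_mono fun t ht => ht.1) h0
  have hSq : (volume : Measure ℝ) Sq = 0 := by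
    apply null_of_null_image (fun t => ℓ₁ (γ t)) Sq
    · intro t ht
      exact ℓ₁.differentiableAt.comp t ht.2.1
    · intro t ht
      have : fderiv ℝ (fun t => ℓ₁ (γ t)) t = ℓ₁.comp (fderiv ℝ γ t) :=
        (ℓ₁.hasFDerivAt.comp t ht.2.1.hasFDerivAt).fderiv
      rw [this]; exact ht.2.2
    · exact measure_mono_null (image_mono fun t ht => ht.1) h1
  refine measure_mono_null (image_mono hcov) ?_
  rw [image_union, image_union, image_union]
  exact measure_union_null (measure_union_null (measure_union_null (hnullimg _ hZ) hS0)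
    (hnullimg _ hSp)) (hnullimg _ hSq)

end Pool.Agent.helper29.Conical
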